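import Pool.Agent.Helper69.SW.St

/-!
# Project SW (MP_65faa7), module FU: the derivative is bounded by the function
-/

set_option autoImplicit false

open scoped BigOperators ENNReal Topology
open Pool.LE Pool.NL Pool.CL Pool.CB Filter

namespace Pool.SW

namespace FUM

theorem bern {θ θ₁ : ℝ} (h0 : 0 < θ) (h1 : θ < θ₁) : ∃ C : ℝ, 1 ≤ C ∧ ∀ r : ℕ,
    θ ^ r ≤ C * (θ₁ ^ (r + 1) / ((r : ℝ) + 1)) := by
  have hθ₁ : 0 < θ₁ := h0.trans h1
  set s : ℝ := θ₁ / θ - 1 with hs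
  have hs0 : 0 < s := by
    have : 1 < θ₁ / θ := (one_lt_div h0).2 h1
    linarith
  set B : ℝ := max 1 (1 / s) with hB
  have hB1 : 1 ≤ B := le_max_left _ _
  have hBs : 1 ≤ B * s := by
    have h2 : 1 / s ≤ B := le_max_right _ _
    calc (1 : ℝ) = 1 / s * s := by field_simp
      _ ≤ B * s := mul_le_mul_of_nonneg_right h2 hs0.le
  refine ⟨max 1 (B / θ₁), le_max_left _ _, fun r => ?_⟩
  have h3 : 1 + (r : ℝ) * s ≤ (θ₁ / θ) ^ r := by
    have h4 := one_add_mul_le_pow (a := s) (by linarith) r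
    have h5 : 1 + s = θ₁ / θ := by
      rw [hs]
      ring
    rwa [h5] at h4
  have hr : (0 : ℝ) ≤ r := Nat.cast_nonneg r
  have h6 : (r : ℝ) + 1 ≤ B * (θ₁ / θ) ^ r := by
    calc (r : ℝ) + 1 ≤ B * (1 + r * s) := by nlinarith
      _ ≤ B * (θ₁ / θ) ^ r := mul_le_mul_of_nonneg_left h3 (by linarith)
  have h7 : ((r : ℝ) + 1) * θ ^ r ≤ B * θ₁ ^ r := by
    calc ((r : ℝ) + 1) * θ ^ r ≤ (B * (θ₁ / θ) ^ r) * θ ^ r :=
          mul_le_mul_of_nonneg_right h6 (by positivity)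
      _ = B * θ₁ ^ r := by
          rw [div_pow]
          field_simp
  have h8 : θ ^ r ≤ (B / θ₁) * (θ₁ ^ (r + 1) / ((r : ℝ) + 1)) := by
    have h9 : (B / θ₁) * (θ₁ ^ (r + 1) / ((r : ℝ) + 1)) = B * θ₁ ^ r / ((r : ℝ) + 1) := by
      rw [pow_succ]
      field_simp
    rw [h9, le_div_iff₀ (by positivity)]
    linarith
  exact h8.trans (mul_le_mul_of_nonneg_right (le_max_right _ _) (by positivity))

end FUM

theorem hFU (hUp : StUp) : StFU := by
  intro θ θ₁ h0 h1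
  obtain ⟨C, hC, hr⟩ := FUM.bern h0 h1
  refine ⟨C, hC, ?_⟩
  intro d n L c V f hd hn hc hV hf N x
  have hco := (hUp d n L c V θ f hd hn hc hV h0.le hf).1
  simp only [Fp, Up]
  rw [Finset.mul_sum]
  refine Finset.sum_le_sum fun r _ => ?_
  calc co (TS L n c) V f r x * θ ^ r
      ≤ co (TS L n c) V f r x * (C * (θ₁ ^ (r + 1) / ((r : ℝ) + 1))) :=
        mul_le_mul_of_nonneg_left (hr r) (hco r x).1
    _ = C * (co (TS L n c) V f r x * θ₁ ^ (r + 1) / ((r : ℝ) + 1)) := by ring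

end Pool.SW
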