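import Pool.Agent.Helper69.SW.St

/-!
# Project SW (MP_65faa7), module S7: from the radius of convergence to finiteness
-/

set_option autoImplicit false

open scoped BigOperators ENNReal Topology
open Pool.LE Pool.NL Pool.CL Pool.CB Filter

namespace Pool.SW

namespace S7M

theorem split (a : ℕ → ℝ) (ha : ∀ r, 0 ≤ a r) (u s ρ : ℝ) (hu : 0 ≤ u) (hs : 0 ≤ s)
    (hρ0 : 0 ≤ ρ) (hρ1 : ρ ≤ 1) (hus : u ≤ ρ * s) (r₀ N : ℕ) :
    ∑ r ∈ Finset.range N, a r * u ^ r ≤
      (∑ r ∈ Finset.range r₀, a r * u ^ r) + ρ ^ r₀ * ∑ r ∈ Finset.range N, a r * s ^ r := by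
  have h1 : ∀ r ∈ Finset.range N, a r * u ^ r ≤
      (if r < r₀ then a r * u ^ r else 0) + ρ ^ r₀ * (a r * s ^ r) := by
    intro r _
    by_cases hr : r < r₀
    · rw [if_pos hr]
      have : 0 ≤ ρ ^ r₀ * (a r * s ^ r) :=
        mul_nonneg (pow_nonneg hρ0 _) (mul_nonneg (ha r) (pow_nonneg hs _))
      linarith
    · rw [if_neg hr, zero_add]
      push Not at hr
      have h2 : u ^ r ≤ (ρ * s) ^ r := pow_le_pow_left₀ hu hus r
      have h3 : ρ ^ r ≤ ρ ^ r₀ := pow_le_pow_of_le_one hρ0 hρ1 hr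
      calc a r * u ^ r ≤ a r * (ρ * s) ^ r := mul_le_mul_of_nonneg_left h2 (ha r)
        _ = ρ ^ r * (a r * s ^ r) := by
            rw [mul_pow]
            ring
        _ ≤ ρ ^ r₀ * (a r * s ^ r) :=
            mul_le_mul_of_nonneg_right h3 (mul_nonneg (ha r) (pow_nonneg hs _))
  refine (Finset.sum_le_sum h1).trans ?_
  rw [Finset.sum_add_distrib, ← Finset.mul_sum, ← Finset.sum_filter]
  refine add_le_add_left ?_ _
  refine Finset.sum_le_sum_of_subset_of_nonneg ?_ fun r _ _ =>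
    mul_nonneg (ha r) (pow_nonneg hu _)
  intro r hr
  rw [Finset.mem_filter] at hr
  exact Finset.mem_range.2 hr.2

theorem mono (a : ℕ → ℝ) (ha : ∀ r, 0 ≤ a r) (u v : ℝ) (hu : 0 ≤ u) (huv : u ≤ v) (N : ℕ) :
    ∑ r ∈ Finset.range N, a r * u ^ r ≤ ∑ r ∈ Finset.range N, a r * v ^ r :=
  Finset.sum_le_sum fun r _ => mul_le_mul_of_nonneg_left (pow_le_pow_left₀ hu huv r) (ha r)

end S7M

theorem hS7 (hClo : StClo) (hTr7 : StTr7) (hUp : StUp) : Pool.CB.StS7 := by
  intro d M V c η θ θ' cl hd hM hV hc hη hη1 hθ hθθ' hlim hsum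
  obtain ⟨K, hK1, hK⟩ := hTr7 d M V c η θ θ' cl hd hM hV hc hη hη1 hθ hθθ' hlim hsum
  have hd1 : 1 ≤ d := by omega
  obtain ⟨A, hA⟩ : ∃ A : ℝ, A = K + 2 := ⟨_, rfl⟩
  have hA0 : 0 < A := by linarith
  obtain ⟨δ, hδ⟩ : ∃ δ : ℝ, δ = η / (4 * V * A ^ 2) := ⟨_, rfl⟩
  have hδ0 : 0 < δ := by
    rw [hδ]
    positivity
  have hf : ∀ (n : ℕ) (y : Zd d), η ≤ sB n y + η := by
    intro n y
    have : 0 ≤ sB n y := by
      unfold sB ind
      split_ifs <;> norm_num
    linarith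
  have hco : ∀ n : ℕ, 1 ≤ n → ∀ (r : ℕ) (x : Zd d),
      0 ≤ co (TS (Lam d n M) n c) V (fun y => sB n y + η) r x := by
    intro n hn r x
    exact ((hUp d n (Lam d n M) c V θ (fun y => sB n y + η) hd1 hn hc hV hθ.le
      (fun y => hη.le.trans (hf n y))).1 r x).1
  have key : ∀ k : ℕ, ∃ n₀ : ℕ, 1 ≤ n₀ ∧ ∀ n : ℕ, n₀ ≤ n → ∀ (N : ℕ), ∀ x ∈ Lam d n M,
      Fp (TS (Lam d n M) n c) V (fun y => sB n y + η) N (min (k * (δ / 2)) θ) x ≤ A := by
    intro k
    induction k with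
    | zero =>
      obtain ⟨n₀, hn₀, h⟩ := hK 1
      refine ⟨n₀, hn₀, fun n hn N x hx => ?_⟩
      have h1 := h n hn x hx
      have h2 : min (((0 : ℕ) : ℝ) * (δ / 2)) θ = 0 := by
        rw [Nat.cast_zero, zero_mul]
        exact min_eq_left hθ.le
      rw [h2]
      have hn1 : 1 ≤ n := hn₀.trans hn
      have h3 := S7M.split (fun r => co (TS (Lam d n M) n c) V (fun y => sB n y + η) r x)
        (fun r => hco n hn1 r x) 0 0 0 le_rfl le_rfl le_rfl zero_le_one (by simp) 1 N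
      have h4 := S7M.mono (fun r => co (TS (Lam d n M) n c) V (fun y => sB n y + η) r x)
        (fun r => hco n hn1 r x) 0 θ le_rfl hθ.le 1
      simp only [Fp] at h1 ⊢
      simp only [pow_one, zero_mul, add_zero] at h3
      linarith
    | succ k ih =>
      obtain ⟨n₁, hn₁, ih⟩ := ih
      obtain ⟨t, ht⟩ : ∃ t : ℝ, t = min ((k : ℝ) * (δ / 2)) θ := ⟨_, rfl⟩
      have ht0 : 0 ≤ t := by
        rw [ht]
        exact le_min (by positivity) hθ.le
      obtain ⟨u, hu⟩ : ∃ u : ℝ, u = min (((k + 1 : ℕ) : ℝ) * (δ / 2)) θ := ⟨_, rfl⟩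
      have hu0 : 0 ≤ u := by
        rw [hu]
        exact le_min (by positivity) hθ.le
      have huθ : u ≤ θ := by
        rw [hu]
        exact min_le_right _ _
      have hut : u ≤ t + δ / 2 := by
        rw [hu, ht, ← min_add_add_right]
        refine min_le_min (le_of_eq ?_) (by linarith)
        push_cast
        ring
      set ρ : ℝ := (t + δ / 2) / (t + δ) with hρ
      have hρ0 : 0 ≤ ρ := by positivity
      have hρ1 : ρ < 1 := by
        rw [hρ, div_lt_one (by positivity)]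
        linarith
      obtain ⟨r₀, hr₀⟩ : ∃ r₀ : ℕ, ρ ^ r₀ < 1 / (4 * A) :=
        exists_pow_lt_of_lt_one (by positivity) hρ1
      obtain ⟨n₂, hn₂, h⟩ := hK r₀
      refine ⟨max n₁ n₂, hn₁.trans (le_max_left _ _), fun n hn N x hx => ?_⟩
      have hn1 : n₁ ≤ n := (le_max_left _ _).trans hn
      have hn2 : n₂ ≤ n := (le_max_right _ _).trans hn
      have hn1' : 1 ≤ n := hn₁.trans hn1
      have h1 := hClo d n (Lam d n M) c V η A t (fun y => sB n y + η) hd1 hn1' hc hV hη hA0 ht0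
        (hf n) (fun N x hx => by
          rw [ht]
          exact ih n hn1 N x hx) N x hx
      rw [← hδ] at h1
      have h2 := h n hn2 x hx
      rw [← hu]
      have h3 := S7M.split (fun r => co (TS (Lam d n M) n c) V (fun y => sB n y + η) r x)
        (fun r => hco n hn1' r x) u (t + δ) ρ hu0 (by linarith) hρ0 hρ1.le (by
          rw [hρ, div_mul_cancel₀ _ (by positivity)]
          exact hut) r₀ N
      have h4 := S7M.mono (fun r => co (TS (Lam d n M) n c) V (fun y => sB n y + η) r x)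
        (fun r => hco n hn1' r x) u θ hu0 huθ r₀
      simp only [Fp] at h1 h2 ⊢
      have h5 : ρ ^ r₀ * ∑ r ∈ Finset.range N,
          co (TS (Lam d n M) n c) V (fun y => sB n y + η) r x * (t + δ) ^ r ≤ 1 := by
        calc ρ ^ r₀ * ∑ r ∈ Finset.range N,
              co (TS (Lam d n M) n c) V (fun y => sB n y + η) r x * (t + δ) ^ r
            ≤ ρ ^ r₀ * (4 * A) := mul_le_mul_of_nonneg_left h1 (pow_nonneg hρ0 _)
          _ ≤ 1 / (4 * A) * (4 * A) := mul_le_mul_of_nonneg_right hr₀.le (by positivity)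
          _ = 1 := by field_simp
      linarith
  obtain ⟨k, hk⟩ := exists_nat_ge (θ / (δ / 2))
  obtain ⟨n₀, hn₀, h⟩ := key k
  refine ⟨A, n₀, hn₀, fun n hn N x hx => ?_⟩
  have h1 := h n hn N x hx
  have h2 : min ((k : ℝ) * (δ / 2)) θ = θ := by
    refine min_eq_right ?_
    rwa [div_le_iff₀ (by positivity)] at hk
  rwa [h2] at h1

end Pool.SW
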